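import Pool.Agent.H438.CT.Near

/-!
# Adelic points which survive the three-power descent
-/

set_option autoImplicit false
set_option linter.all false

open IsDedekindDomain NumberField WeierstrassCurve MvPolynomial

namespace Pool.Agent.H438.CT

open Pool.Agent.TH954 Pool.Agent.TH942
open Pool.Agent.Y696.CTK (ED Tri ClsK tors)
open Pool.Agent.R419.ST

open scoped Classical

section general

variable {K : Type} [Field K] [NumberField K] {n : ℕ}

/-- the adelic point `P` lifts to the `N`-covering given by cocycles -/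
def Lifts (E : Fin n → WeierstrassCurve K) (N : ℕ)
    (P : (v : HeightOneSpectrum (𝓞 K)) → (i : Fin n) →
      ((E i).baseChange (v.adicCompletion K)).toAffine.Point) : Prop :=
  ∃ ξ : (i : Fin n) → (AlgebraicClosure K ≃ₐ[K] AlgebraicClosure K) → AlgPt (E i) K,
    (∀ i, IsCocycle (E i) (ξ i)) ∧ (∀ i σ, N • ξ i σ = 0) ∧
    ∀ v, CovAt E N ξ (v.adicCompletion K) (P v)

theorem adel_main (E : Fin n → WeierstrassCurve K) (hsha : ∀ i, Sha3 (E i))
    (hfin : ∀ i, Finite ((E i).baseChange K).toAffine.Point)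
    (P : (v : HeightOneSpectrum (𝓞 K)) → (i : Fin n) →
      ((E i).baseChange (v.adicCompletion K)).toAffine.Point)
    (h : ∀ k, Lifts E (3 ^ k) P) :
    ∃ y : (i : Fin n) → ((E i).baseChange K).toAffine.Point, ∀ v i (k : ℕ), ∃ z,
      P v i = pm (E i) (Algebra.ofId K (v.adicCompletion K)) (y i) + 3 ^ k • z := by
  have key : ∀ k : ℕ, ∃ y : (i : Fin n) → ((E i).baseChange K).toAffine.Point, ∀ v i, ∃ z,
      P v i = pm (E i) (Algebra.ofId K (v.adicCompletion K)) (y i) + 3 ^ k • z := by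
    intro k
    obtain ⟨ξ, h1, h2, h3⟩ := h k
    have hT : ∀ i, ∃ (R : AlgPt (E i) K) (y : ((E i).baseChange K).toAffine.Point),
        incl (E i) K y = 3 ^ k • R ∧ ∀ σ, ξ i σ = act (E i) σ R - R := by
      intro i
      refine coc_three k (hsha i k) (ξ i) (h1 i) (h2 i) (fun u => ?_)
        (fun w => triv_inf (h1 i) (h2 i) w)
      obtain ⟨ι, Q, -, h⟩ := h3 u
      exact ⟨ι, Q i, fun σ τ hστ => h i σ τ hστ⟩
    choose R y hy hR using hT
    refine ⟨y, fun v i => ?_⟩
    have : CharZero (v.adicCompletion K) :=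
      charZero_of_injective_algebraMap (algebraMap K (v.adicCompletion K)).injective
    obtain ⟨ι, Q, hPQ, hQ⟩ := h3 v
    exact shift (hy i) (hR i) ι (hPQ i) fun σ τ hστ => hQ i σ τ hστ
  choose y hy using key
  obtain ⟨y₀, hy₀⟩ : ∃ y₀, ∀ k, ∃ k' ≥ k, y k' = y₀ := by
    obtain ⟨y₀, h⟩ := Finite.exists_infinite_fiber y
    refine ⟨y₀, fun k => ?_⟩
    have h2 : (y ⁻¹' {y₀}).Infinite := Set.infinite_coe_iff.1 h
    obtain ⟨k', h3, h4⟩ := h2.exists_gt k
    exact ⟨k', h4.le, h3⟩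
  refine ⟨y₀, fun v i k => ?_⟩
  obtain ⟨k', hk, hyk⟩ := hy₀ k
  obtain ⟨z, hz⟩ := hy k' v i
  refine ⟨3 ^ (k' - k) • z, ?_⟩
  rw [← mul_smul, ← pow_add, Nat.add_sub_cancel' hk, ← hyk]
  exact hz

end general

section main

variable {K : Type} [Field K] [NumberField K] [IsCyclotomicExtension {3} ℚ K] {n : ℕ}

theorem adel {D : Fin n → 𝓞 K} (hD : ∀ i, ClsK (D i)) (ht : ∀ i, Tri (D i))
    (P : (v : HeightOneSpectrum (𝓞 K)) → (i : Fin n) →
      ((ED (D i : K)).baseChange (v.adicCompletion K)).toAffine.Point)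
    (h : ∀ k, Lifts (fun i => ED (D i : K)) (3 ^ k) P) :
    ∃ y : (i : Fin n) → ((ED (D i : K)).baseChange K).toAffine.Point,
      (∀ i, 3 • y i = 0 ∧
        (crd (y i) = ![0, 1, 0] ∨ crd (y i) = ![0, 0, 1] ∨ crd (y i) = ![0, -(D i : K), 1])) ∧
      (∀ v i (k : ℕ), ∃ z, P v i =
        pm (ED (D i : K)) (Algebra.ofId K (v.adicCompletion K)) (y i) + 3 ^ k • z) ∧
      ∀ v : HeightOneSpectrum (𝓞 K), ((3 : ℕ) : 𝓞 K) ∈ v.asIdeal →
        ∀ i, NearAt (D i) (v.adicCompletion K) (P v i) (y i) := by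
  obtain ⟨y, hy⟩ := adel_main (fun i => ED (D i : K)) (fun i => (ht i).2) (fun i => (ht i).1) P h
  have hf : ∀ i, Finite ((ED (D i : K)).baseChange K).toAffine.Point := fun i => (ht i).1
  choose u hu3 hu using fun i => split (G := ((ED (D i : K)).baseChange K).toAffine.Point)
    (tri_tors (hD i) (ht i)) (y i)
  have h4 : ∀ (v : HeightOneSpectrum (𝓞 K)) i (k : ℕ), ∃ z, P v i =
      pm (ED (D i : K)) (Algebra.ofId K (v.adicCompletion K)) (u i) + 3 ^ k • z := by
    intro v i k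
    obtain ⟨z, hz⟩ := hy v i k
    obtain ⟨w, hw⟩ := hu i k
    refine ⟨z + pm (ED (D i : K)) (Algebra.ofId K (v.adicCompletion K)) w, ?_⟩
    rw [hz, smul_add, ← map_nsmul, hw, map_add, map_nsmul]
    abel
  exact ⟨u, fun i => ⟨hu3 i, tor_crd (hD i) (ht i) (hu3 i)⟩, h4,
    fun v hv => near_three hD v hv (P v) u (h4 v)⟩

/-- a rational point which is on `X` over a completion is on `X` -/
lemma onX_of_near {D : Fin n → 𝓞 K} {S : Set (MvPolynomial (Fin n × Fin 3) K)}
    (h9 : ∀ i, ¬ (9 : 𝓞 K) ∣ D i + 2) (v : HeightOneSpectrum (𝓞 K))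
    {P : (i : Fin n) → ((ED (D i : K)).baseChange (v.adicCompletion K)).toAffine.Point}
    (hP : OnX S (fun i => crd (P i)))
    {y : (i : Fin n) → ((ED (D i : K)).baseChange K).toAffine.Point}
    (hy : ∀ i, NearAt (D i) (v.adicCompletion K) (P i) (y i)) :
    OnX S (fun i => crd (y i)) := by
  have h5 : ∀ i, P i = pm (ED (D i : K)) (Algebra.ofId K (v.adicCompletion K)) (y i) :=
    fun i => (hy i).2 (h9 i)
  intro f hf
  have h6 := hP f hf
  have e1 : (fun q : Fin n × Fin 3 => crd (P q.1) q.2) =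
      fun q => algebraMap K (v.adicCompletion K) (crd (y q.1) q.2) := by
    funext q
    rw [h5 q.1, Pool.Agent.R419.ST.crd_pm]
    rfl
  rw [e1] at h6
  have h7 := aeval_algebraMap_apply (v.adicCompletion K)
    (fun q : Fin n × Fin 3 => crd (y q.1) q.2) f
  have h8 := h7.symm.trans h6
  exact (map_eq_zero _).1 h8

/-- **The Selmer set of some level is empty if there is no rational point.** -/
theorem fin_level {D : Fin n → 𝓞 K} (hD : ∀ i, ClsK (D i)) (ht : ∀ i, Tri (D i))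
    (S : Set (MvPolynomial (Fin n × Fin 3) K)) (hS : ∀ f ∈ S, ∃ d, MultiHom d f)
    (h9 : ∀ i, ¬ (9 : 𝓞 K) ∣ D i + 2)
    (hX : ∀ y : (i : Fin n) → ((ED (D i : K)).baseChange K).toAffine.Point,
      (∀ i, 3 • y i = 0) → ¬ OnX S (fun i => crd (y i)))
    (v : HeightOneSpectrum (𝓞 K)) (hv : ((3 : ℕ) : 𝓞 K) ∈ v.asIdeal) :
    ∃ k : ℕ, ∀ P : (v : HeightOneSpectrum (𝓞 K)) → (i : Fin n) →
      ((ED (D i : K)).baseChange (v.adicCompletion K)).toAffine.Point,
      OnX S (fun i => crd (P v i)) → ¬ Lifts (fun i => ED (D i : K)) (3 ^ k) P := by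
  by_contra hcon
  push Not at hcon
  obtain ⟨lam, hL⟩ := isLoc v hv
  have inst3 : ProperSpace (v.adicCompletion K) := Pool.Agent.Y791.BS.proper v
  have : CharZero (v.adicCompletion K) :=
    charZero_of_injective_algebraMap (algebraMap K (v.adicCompletion K)).injective
  have hfin : ∀ i, Finite ((ED (D i : K)).baseChange K).toAffine.Point := fun i => (ht i).1
  have hD0 : ∀ i, D i ≠ 0 := fun i => (hD i).2.1.ne_zero
  let Y : Set ((i : Fin n) → ((ED (D i : K)).baseChange (v.adicCompletion K)).toAffine.Point) :=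
    (fun (y : (i : Fin n) → ((ED (D i : K)).baseChange K).toAffine.Point) i =>
      pm (ED (D i : K)) (Algebra.ofId K (v.adicCompletion K)) (y i)) '' {y | ∀ i, 3 • y i = 0}
  have hY : Y.Finite := Set.Finite.image _ (Set.toFinite _)
  let θ : K →+* v.adicCompletion K := algebraMap K (v.adicCompletion K)
  obtain ⟨P, hP, y', ⟨y, hy3, hy⟩, h1⟩ := lim_V hL.th (fun i => ff v (D i)) (fun i => nff_le v (D i))
    (fun i => ne_ff (hD0 i) v) (fun i => (ED (D i : K)).baseChange (v.adicCompletion K))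
    (funext fun i => base_ED (v.adicCompletion K) (D i)) {f | ∃ h ∈ S, f = map θ h}
    (by
      rintro f ⟨h, hh, rfl⟩
      obtain ⟨d, hd⟩ := hS h hh
      exact ⟨d, fun m hm => hd m (MvPolynomial.support_map_subset _ _ hm)⟩) Y hY (fun k => by
      obtain ⟨P, hP, ξ, g1, g2, g3⟩ := hcon k
      have hT : ∀ i, ∃ (R : AlgPt (ED (D i : K)) K)
          (y : ((ED (D i : K)).baseChange K).toAffine.Point),
          incl (ED (D i : K)) K y = 3 ^ k • R ∧ ∀ σ, ξ i σ = act (ED (D i : K)) σ R - R := by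
        intro i
        refine coc_three k ((ht i).2 k) (ξ i) (g1 i) (g2 i) (fun u => ?_)
          (fun w => triv_inf (g1 i) (g2 i) w)
        obtain ⟨ι, Q, -, h⟩ := g3 u
        exact ⟨ι, Q i, fun σ τ hστ => h i σ τ hστ⟩
      choose R y hy hR using hT
      choose u hu3 hu using fun i => split (G := ((ED (D i : K)).baseChange K).toAffine.Point)
        (tri_tors (hD i) (ht i)) (y i)
      obtain ⟨ι, Q, hPQ, hQ⟩ := g3 v
      refine ⟨P v, ?_, _, ⟨u, hu3, rfl⟩, fun i => ?_⟩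
      · rintro f ⟨h, hh, rfl⟩
        have h1 := hP h hh
        rw [aeval_def] at h1
        rw [eval_map]
        exact h1
      · obtain ⟨z, hz⟩ := shift (hy i) (hR i) ι (hPQ i) fun σ τ hστ => hQ i σ τ hστ
        obtain ⟨w, hw⟩ := hu i k
        refine ⟨z + pm (ED (D i : K)) (Algebra.ofId K (v.adicCompletion K)) w, ?_⟩
        rw [hz, smul_add, ← map_nsmul, hw, map_add, map_nsmul]
        abel)
  have hnear : ∀ i, NearAt (D i) (v.adicCompletion K) (P i) (y i) := by
    intro i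
    obtain ⟨m, hm, h2⟩ := h1 i
    rw [← hy] at h2
    exact near_of (hD i).1 hv hL hm h2
  refine hX y hy3 (onX_of_near h9 v ?_ hnear)
  intro f hf
  have h2 := hP (map θ f) ⟨f, hf, rfl⟩
  rw [eval_map] at h2
  rw [aeval_def]
  exact h2

variable (K) in
lemma exists_above_three : ∃ v : HeightOneSpectrum (𝓞 K), ((3 : ℕ) : 𝓞 K) ∈ v.asIdeal := by
  obtain ⟨l, η, hl, hη, h2, -⟩ := ex_lam (K := K)
  refine ⟨⟨Ideal.span {l}, (Ideal.span_singleton_prime hl.ne_zero).2 hl, by
    rw [Ne, Ideal.span_singleton_eq_bot]; exact hl.ne_zero⟩, ?_⟩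
  refine Ideal.mem_span_singleton.2 ⟨l * (-(η ^ 2)), ?_⟩
  rw [hη]
  push_cast
  have h3 : η ^ 3 = 1 := by linear_combination (η - 1) * h2
  linear_combination η ^ 2 * h2 - 3 * h3

end main

end Pool.Agent.H438.CT
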