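import Mathlib

/-!
# Finite groups whose three-primary part has order three
-/

set_option autoImplicit false
set_option linter.all false

namespace Pool.Agent.H438.CT

section

variable {G : Type} [AddCommGroup G] [Finite G]

lemma card_form (h : padicValNat 3 (Nat.card G) = 1) :
    ∃ m : ℕ, Nat.card G = 3 * m ∧ ¬ 3 ∣ m ∧ 0 < m := by
  have h0 : Nat.card G ≠ 0 := Nat.card_pos.ne'
  have h1 : 3 ^ 1 ∣ Nat.card G := by
    rw [← h]
    exact pow_padicValNat_dvd
  obtain ⟨m, hm⟩ := h1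
  rw [pow_one] at hm
  refine ⟨m, hm, fun hd => ?_, ?_⟩
  · obtain ⟨l, rfl⟩ := hd
    have h2 : 3 ^ 2 ∣ Nat.card G := ⟨l, by rw [hm]; ring⟩
    have h3 := (padicValNat_dvd_iff_le (p := 3) h0).1 h2
    omega
  · rcases Nat.eq_zero_or_pos m with rfl | hm0
    · rw [mul_zero] at hm
      exact absurd hm h0
    · exact hm0

theorem split (h : padicValNat 3 (Nat.card G) = 1) (y : G) :
    ∃ u : G, 3 • u = 0 ∧ ∀ k : ℕ, ∃ w : G, y = u + 3 ^ k • w := by
  obtain ⟨m, hm, h3, hm0⟩ := card_form h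
  have hy : (3 * m) • y = 0 := by rw [← hm]; exact card_nsmul_eq_zero'
  have hcop : IsCoprime (3 : ℤ) (m : ℤ) := by
    rw [show (3 : ℤ) = ((3 : ℕ) : ℤ) by norm_num, Nat.isCoprime_iff_coprime]
    exact (Nat.Prime.coprime_iff_not_dvd Nat.prime_three).2 h3
  obtain ⟨β, α, hab⟩ := hcop
  have hyz : ((3 : ℤ) * m) • y = 0 := by
    rw [← Nat.cast_ofNat (R := ℤ) (n := 3), ← Nat.cast_mul, natCast_zsmul]
    exact hy
  refine ⟨(α * m) • y, ?_, fun k => ?_⟩
  · rw [← natCast_zsmul, smul_smul]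
    have e : ((3 : ℕ) : ℤ) * (α * m) = α * (3 * m) := by push_cast; ring
    rw [e, mul_smul, hyz, smul_zero]
  · have hcop2 : IsCoprime ((3 : ℤ) ^ k) (m : ℤ) := IsCoprime.pow_left ⟨β, α, hab⟩
    obtain ⟨c, d, hcd⟩ := hcop2
    refine ⟨(c * (β * 3)) • y, ?_⟩
    rw [← natCast_zsmul, smul_smul, ← add_smul]
    have e : α * m + ((3 ^ k : ℕ) : ℤ) * (c * (β * 3)) = 1 - (d * β) * (3 * m) := by
      have e1 : c * 3 ^ k = 1 - d * m := by linear_combination hcd
      push_cast
      linear_combination (β * 3) * e1 + hab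
    rw [e, sub_smul, one_smul, mul_smul, hyz, smul_zero, sub_zero]

theorem three_tors (h : padicValNat 3 (Nat.card G) = 1) {T u : G} (hT : 3 • T = 0) (hT0 : T ≠ 0)
    (hu : 3 • u = 0) : u = 0 ∨ u = T ∨ u = -T := by
  obtain ⟨m, hm, h3, hm0⟩ := card_form h
  by_contra hcon
  have hord : addOrderOf T = 3 := addOrderOf_eq_prime (hp := ⟨Nat.prime_three⟩) hT hT0
  have hnot : u ∉ AddSubgroup.zmultiples T := by
    intro hmem
    obtain ⟨z, rfl⟩ := AddSubgroup.mem_zmultiples_iff.1 hmem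
    apply hcon
    have hz : z • T = (z % 3) • T := by
      conv_lhs => rw [← Int.emod_add_mul_ediv z 3]
      rw [add_smul, mul_comm, mul_smul]
      have e : (3 : ℤ) • T = 0 := by
        rw [← hT, ← natCast_zsmul]
        rfl
      rw [e, smul_zero, add_zero]
    rw [hz]
    have h1 := Int.emod_nonneg z (by norm_num : (3 : ℤ) ≠ 0)
    have h2 := Int.emod_lt_of_pos z (by norm_num : (0 : ℤ) < 3)
    have h4 : z % 3 = 0 ∨ z % 3 = 1 ∨ z % 3 = 2 := by omega
    rcases h4 with h4 | h4 | h4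
    · left; rw [h4, zero_smul]
    · right; left; rw [h4, one_smul]
    · right; right
      rw [h4, eq_neg_iff_add_eq_zero]
      have : (2 : ℤ) • T + T = 3 • T := by
        rw [← natCast_zsmul]
        have : ((3 : ℕ) : ℤ) = 2 + 1 := by norm_num
        rw [this, add_smul, one_smul]
      rw [this, hT]
  let q := QuotientAddGroup.mk' (AddSubgroup.zmultiples T)
  have hq : q u ≠ 0 := fun h0 => hnot ((QuotientAddGroup.eq_zero_iff u).1 h0)
  have hq3 : 3 • q u = 0 := by rw [← map_nsmul, hu, map_zero]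
  have ho : addOrderOf (q u) = 3 := addOrderOf_eq_prime (hp := ⟨Nat.prime_three⟩) hq3 hq
  have hd : 3 ∣ Nat.card (G ⧸ AddSubgroup.zmultiples T) := by
    rw [← ho]
    exact addOrderOf_dvd_natCard _
  have hc := AddSubgroup.card_eq_card_quotient_mul_card_addSubgroup (AddSubgroup.zmultiples T)
  rw [Nat.card_zmultiples, hord, hm] at hc
  apply h3
  obtain ⟨l, hl⟩ := hd
  rw [hl] at hc
  exact ⟨l, by omega⟩

end

end Pool.Agent.H438.CT
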