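import Pool.Graph.R_seed8.R419.ST.Main
import Pool.Graph.R_seed8.R425.D.SecT

/-!
# Places and points of `y² + D y = x³`

The reduction of points at a place, division points and torsion points, for curves which become
`y² = x³ + a x + b` by a translation of `y`.
-/

set_option autoImplicit false
set_option linter.all false

open IsDedekindDomain NumberField WeierstrassCurve MvPolynomial

namespace Pool.Agent.H438.CT

open Pool.Agent.TH954 Pool.Agent.TH942 Pool.Agent.W620.SC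
open Pool.Agent.R419.ST (WE WS isoS)

open scoped Classical

section iso

variable {K : Type} [Field K]

/-- `Φ` is a natural isomorphism of the points of `E` and of `y² = x³ + a x + b`, of the form
`(x, y) ↦ (x, y + c)`. -/
structure Tr (E : WeierstrassCurve K) (a b c : K) where
  Φ : ∀ (L : Type) [Field L] [Algebra K L],
    (E.baseChange L).toAffine.Point ≃+ ((sw a b).baseChange L).toAffine.Point
  spec : ∀ (L : Type) [Field L] [Algebra K L] (x y : L) (h), ∃ h',
    Φ L (.some x y h) = .some x (y + algebraMap K L c) h'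

variable {E : WeierstrassCurve K} {a b c : K} (t : Tr E a b c)

lemma Tr.symm_spec (L : Type) [Field L] [Algebra K L] (x y : L) (h) : ∃ h',
    (t.Φ L).symm (.some x y h) = .some x (y - algebraMap K L c) h' := by
  generalize hT : (t.Φ L).symm (.some x y h) = T
  have h1 : t.Φ L T = .some x y h := by rw [← hT, AddEquiv.apply_symm_apply]
  rcases T with _ | ⟨x', y', k⟩
  · have h2 : t.Φ L (.zero : (E.baseChange L).toAffine.Point) = 0 := map_zero (t.Φ L)
    rw [h2] at h1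
    exact absurd h1 (by intro h3; cases h3)
  · obtain ⟨k', e⟩ := t.spec L x' y' k
    rw [e, Affine.Point.some.injEq] at h1
    obtain ⟨rfl, rfl⟩ := h1
    refine ⟨by rw [add_sub_cancel_right]; exact k, ?_⟩
    rw [Affine.Point.some.injEq]
    exact ⟨rfl, (add_sub_cancel_right _ _).symm⟩

lemma Tr.nat {L₁ L₂ : Type} [Field L₁] [Algebra K L₁] [Field L₂] [Algebra K L₂] (f : L₁ →ₐ[K] L₂)
    (P : (E.baseChange L₁).toAffine.Point) :
    t.Φ L₂ (pm E f P) = pm (sw a b) f (t.Φ L₁ P) := by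
  rcases P with _ | ⟨x, y, h⟩
  · have e1 : t.Φ L₁ (.zero : (E.baseChange L₁).toAffine.Point) = 0 := map_zero (t.Φ L₁)
    have e2 : pm E f (.zero : (E.baseChange L₁).toAffine.Point) = 0 := map_zero (pm E f)
    rw [e1, e2, map_zero, map_zero]
  · obtain ⟨h', e⟩ := t.spec L₁ x y h
    obtain ⟨k, e1⟩ := pm_some (E := E) f h
    obtain ⟨k', e2⟩ := pm_some (E := sw a b) f h'
    obtain ⟨h'', e3⟩ := t.spec L₂ _ _ k
    rw [e, e1, e2, e3, Affine.Point.some.injEq]
    exact ⟨rfl, by rw [map_add, AlgHom.commutes]⟩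

lemma Tr.nat' {L₁ L₂ : Type} [Field L₁] [Algebra K L₁] [Field L₂] [Algebra K L₂] (f : L₁ →ₐ[K] L₂)
    (P : ((sw a b).baseChange L₁).toAffine.Point) :
    (t.Φ L₂).symm (pm (sw a b) f P) = pm E f ((t.Φ L₁).symm P) := by
  apply (t.Φ L₂).injective
  rw [AddEquiv.apply_symm_apply, t.nat, AddEquiv.apply_symm_apply]

/-- the coordinates -/
lemma Tr.crd (L : Type) [Field L] [Algebra K L] (P : (E.baseChange L).toAffine.Point) :
    crd (t.Φ L P) 0 = crd P 0 ∧ crd (t.Φ L P) 1 = crd P 1 + algebraMap K L c * crd P 2 ∧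
      crd (t.Φ L P) 2 = crd P 2 := by
  rcases P with _ | ⟨x, y, h⟩
  · have e1 : t.Φ L (.zero : (E.baseChange L).toAffine.Point) = .zero := map_zero (t.Φ L)
    rw [e1]
    simp [Pool.Agent.TH954.crd]
  · obtain ⟨h', e⟩ := t.spec L x y h
    rw [e]
    simp [Pool.Agent.TH954.crd]

end iso

section exist

/-- the isomorphism for `y² + D y = x³` -/
theorem exists_tr {K : Type} [Field K] [CharZero K] (D : K) :
    Nonempty (Tr (Pool.Agent.Y696.CTK.ED D) 0 (D ^ 2 / 4) (D / 2)) := by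
  have key : ∀ (L : Type) [Field L] [Algebra K L],
      ∃ Φ : ((Pool.Agent.Y696.CTK.ED D).baseChange L).toAffine.Point ≃+
        ((sw 0 (D ^ 2 / 4)).baseChange L).toAffine.Point,
        ∀ (x y : L) (h), ∃ h', Φ (.some x y h) = .some x (y + algebraMap K L (D / 2)) h' := by
    intro L _ _
    have hL : CharZero L := charZero_of_injective_algebraMap (algebraMap K L).injective
    have h2 : (2 : L) ≠ 0 := two_ne_zero
    have gen : ∀ (W1 W2 : WeierstrassCurve L) (d e : L), W1 = WE d → W2 = WS d → e = d / 2 →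
        ∃ Φ : W1.toAffine.Point ≃+ W2.toAffine.Point,
          ∀ (x y : L) (h), ∃ h', Φ (.some x y h) = .some x (y + e) h' := by
      rintro _ _ d _ rfl rfl rfl
      exact ⟨isoS h2 d, fun x y h => ⟨_, rfl⟩⟩
    refine gen _ _ (algebraMap K L D) _ ?_ ?_ ?_
    · show (Pool.Agent.Y696.CTK.ED D).map (algebraMap K L) = _
      simp [Pool.Agent.Y696.CTK.ED, WE, WeierstrassCurve.map]
    · show (sw 0 (D ^ 2 / 4)).map (algebraMap K L) = _
      have e4 : (algebraMap K L) 4 = 4 := map_ofNat _ 4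
      simp [sw, WS, WeierstrassCurve.map, e4]
    · rw [map_div₀, map_ofNat]
  choose Φ hΦ using key
  exact ⟨⟨fun L _ _ => Φ L, fun L _ _ => hΦ L⟩⟩

end exist

section places

variable {K M C : Type} [Field K] [Field M] [Field C] [Algebra K M] [Algebra K C]

/-- `red` is the reduction homomorphism of the points of `E` at the place `pl` -/
structure IsRed (E : WeierstrassCurve K) (pl : Plc K M C)
    (red : (E.baseChange M).toAffine.Point →+ (E.baseChange C).toAffine.Point) : Prop where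
  pm : ∀ {F0 : Type} [Field F0] [Algebra K F0] (j : F0 →ₐ[K] M) (ι : F0 →ₐ[K] C),
    (∀ z, ∃ h : j z ∈ pl.W, pl.ρ ⟨j z, h⟩ = ι z) →
    ∀ T : (E.baseChange F0).toAffine.Point, red (pm E j T) = Pool.Agent.TH954.pm E ι T
  act : ∀ (g : M →ₐ[K] M) (σ : C →ₐ[K] C),
    (∀ x : pl.W, ∃ h : g x ∈ pl.W, pl.ρ ⟨g x, h⟩ = σ (pl.ρ x)) →
    ∀ T : (E.baseChange M).toAffine.Point, red (Pool.Agent.TH954.pm E g T) =
      Pool.Agent.TH954.pm E σ (red T)
  crd : ∀ T : (E.baseChange M).toAffine.Point,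
    ∃ u : M, u ≠ 0 ∧ ∀ j, ∃ h : u * crd T j ∈ pl.W,
      pl.ρ ⟨u * crd T j, h⟩ = Pool.Agent.TH954.crd (red T) j

theorem exists_red {E : WeierstrassCurve K} {a b c : K} (t : Tr E a b c)
    (hD : 4 * a ^ 3 + 27 * b ^ 2 ≠ 0) (pl : Plc K M C) [CharZero C] :
    ∃ red : (E.baseChange M).toAffine.Point →+ (E.baseChange C).toAffine.Point,
      IsRed E pl red := by
  obtain ⟨red, h1, h2⟩ := exists_redM pl hD
  let R : (E.baseChange M).toAffine.Point →+ (E.baseChange C).toAffine.Point :=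
    ((t.Φ C).symm : _ →+ _).comp (red.comp ((t.Φ M) : _ →+ _))
  have hR : ∀ T, R T = (t.Φ C).symm (red (t.Φ M T)) := fun T => rfl
  refine ⟨R, ⟨?_, ?_, ?_⟩⟩
  · intro F0 _ _ j ι hj T
    rw [hR, t.nat, red_pm (pl := pl) (a := a) (b := b) (red := red) (map_zero red) h1 h2 j ι hj,
      ← t.nat, AddEquiv.symm_apply_apply]
  · intro g σ hg T
    rw [hR, hR, t.nat, red_act (pl := pl) (a := a) (b := b) (red := red) (map_zero red) h1 h2 g σ
      hg, t.nat']
  · intro T
    obtain ⟨u, hu0, hu⟩ := red_crd (pl := pl) (a := a) (b := b) (red := red) (map_zero red) h1 h2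
      (t.Φ M T)
    obtain ⟨c0, c1, c2⟩ := t.crd M T
    obtain ⟨d0, d1, d2⟩ := t.crd C (R T)
    have hRT : t.Φ C (R T) = red (t.Φ M T) := by rw [hR, AddEquiv.apply_symm_apply]
    rw [hRT] at d0 d1 d2
    refine ⟨u, hu0, fun j => ?_⟩
    obtain ⟨m0, r0⟩ := hu 0
    obtain ⟨m1, r1⟩ := hu 1
    obtain ⟨m2, r2⟩ := hu 2
    have aux : ∀ (x y : M) (z : C) (m : y ∈ pl.W), x = y → pl.ρ ⟨y, m⟩ = z →
        ∃ h : x ∈ pl.W, pl.ρ ⟨x, h⟩ = z := by
      rintro x _ z m rfl h
      exact ⟨m, h⟩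
    fin_cases j
    · exact aux _ _ _ m0 (congrArg (u * ·) c0.symm) (r0.trans d0)
    · have e : u * Pool.Agent.TH954.crd T 1 = u * Pool.Agent.TH954.crd (t.Φ M T) 1 -
          algebraMap K M c * (u * Pool.Agent.TH954.crd (t.Φ M T) 2) := by
        rw [c1, c2]; ring
      have hm : u * Pool.Agent.TH954.crd T 1 ∈ pl.W := by
        rw [e]; exact sub_mem m1 (mul_mem (pl.alg_mem c) m2)
      refine ⟨hm, ?_⟩
      show pl.ρ ⟨u * Pool.Agent.TH954.crd T 1, _⟩ = Pool.Agent.TH954.crd (R T) 1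
      have e2 : (⟨u * Pool.Agent.TH954.crd T 1, hm⟩ : pl.W) =
          ⟨_, m1⟩ - pl.cst c * ⟨_, m2⟩ := Subtype.ext e
      rw [e2, map_sub, map_mul, r1, r2, pl.rho_cst, d1, d2]
      ring
    · exact aux _ _ _ m2 (congrArg (u * ·) c2.symm) (r2.trans d2)

end places

section unram

variable {K F Ω : Type} [Field K] [CharZero K] [Field F] [Field Ω] [Algebra K F] [Algebra F Ω]
  [Algebra K Ω] [IsScalarTower K F Ω] [IsAlgClosed Ω] {a b c : K} {E : WeierstrassCurve K}

theorem div_unram (t : Tr E a b c) (hD : 4 * a ^ 3 + 27 * b ^ 2 ≠ 0)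
    (j : AlgebraicClosure K →ₐ[K] Ω)
    (U : Set (ValuationSubring F)) (hU : ∀ O ∈ U, ∀ c : K, algebraMap K F c ∈ O)
    {M : Type} [Field M] [Algebra F M] [Algebra K M] [IsScalarTower K F M] (e : M →ₐ[F] Ω)
    (he : unramified F Ω U ≤ e.fieldRange)
    (P : (E.baseChange F).toAffine.Point) {N : ℕ} (hN : 1 ≤ N) :
    ∃ Q : (E.baseChange M).toAffine.Point,
      N • Q = pm E (IsScalarTower.toAlgHom K F M) P := by
  obtain ⟨Q, hQ⟩ := exists_div_unram hD j U hU e he (t.Φ F P) hN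
  refine ⟨(t.Φ M).symm Q, ?_⟩
  apply (t.Φ M).injective
  rw [map_nsmul, AddEquiv.apply_symm_apply, hQ, t.nat]

theorem tors_mem (t : Tr E a b c) (hD : 4 * a ^ 3 + 27 * b ^ 2 ≠ 0) {M : Type} [Field M]
    [Algebra K M] (e : M →ₐ[K] Ω) (j : AlgebraicClosure K →ₐ[K] M) (N : ℕ) (hN : 1 ≤ N)
    (T : (E.baseChange M).toAffine.Point) (hT : N • T = 0) :
    ∃ T0, pm E j T0 = T := by
  obtain ⟨T0, hT0⟩ := torsion_mem_sub hD e j N hN (t.Φ M T) (by rw [← map_nsmul, hT, map_zero])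
  refine ⟨(t.Φ _).symm T0, ?_⟩
  rw [← t.nat', hT0, AddEquiv.symm_apply_apply]

end unram

end Pool.Agent.H438.CT
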