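import Pool.Agent.H438.CT.Sec
import Pool.Agent.H438.CT.Grp
import Pool.Graph.R_seed8.Y703.XL.InfC

/-!
# The rational points of `y² + D y = x³`, and the place above three
-/

set_option autoImplicit false
set_option linter.all false

open IsDedekindDomain NumberField WeierstrassCurve MvPolynomial

namespace Pool.Agent.H438.CT

open Pool.Agent.TH954 Pool.Agent.TH942 Pool.Agent.W620.SC
open Pool.Agent.Y696.CTK (ED Tri ClsK tors)
open Pool.Agent.R419.ST

open scoped Classical

section tor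

variable {F : Type} [Field F]

/-- the point `(0, 0)` has order three -/
lemma ex_T {D : F} (hD : D ≠ 0) : ∃ T : (ED D).toAffine.Point, 3 • T = 0 ∧ T ≠ 0 ∧
    crd T = ![0, 0, 1] ∧ crd (-T) = ![0, -D, 1] := by
  have hn : (ED D).toAffine.Nonsingular 0 0 := by
    rw [Affine.nonsingular_iff, Affine.equation_iff]
    simp only [ED]
    refine ⟨by ring, Or.inr ?_⟩
    intro h
    apply hD
    linear_combination h
  have hy : (0 : F) ≠ (ED D).toAffine.negY 0 0 := by
    simp only [Affine.negY, ED]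
    intro h
    apply hD
    linear_combination h
  have hs : (ED D).toAffine.slope 0 0 0 0 = 0 := by
    rw [Affine.slope_of_Y_ne rfl hy]
    simp [ED]
  have hneg : ∃ h', -(Affine.Point.some 0 0 hn : (ED D).toAffine.Point) = .some 0 (-D) h' := by
    rw [Affine.Point.neg_some]
    have e : (ED D).toAffine.negY 0 0 = -D := by simp [Affine.negY, ED]
    refine ⟨by rw [← e]; exact (Affine.nonsingular_neg 0 0).2 hn, ?_⟩
    rw [Affine.Point.some.injEq]
    exact ⟨rfl, e⟩
  obtain ⟨h', hneg⟩ := hneg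
  have h2 : (Affine.Point.some 0 0 hn : (ED D).toAffine.Point) + .some 0 0 hn =
      -(Affine.Point.some 0 0 hn) := by
    rw [Affine.Point.add_self_of_Y_ne hy, hneg, Affine.Point.some.injEq]
    rw [hs]
    constructor
    · simp [Affine.addX, ED]
    · simp [Affine.addY, Affine.negAddY, Affine.addX, Affine.negY, ED]
  refine ⟨.some 0 0 hn, ?_, ?_, rfl, ?_⟩
  · rw [show (3 : ℕ) = 2 + 1 by norm_num, add_smul, one_smul, two_nsmul, h2, neg_add_cancel]
  · intro h
    cases h
  · rw [hneg]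
    rfl

end tor

section main

variable {K : Type} [Field K] [NumberField K] [IsCyclotomicExtension {3} ℚ K]

lemma tri_tors {D : 𝓞 K} (hD : ClsK D) (ht : Tri D) :
    padicValNat 3 (Nat.card (ED (D : K)).toAffine.Point) = 1 := by
  obtain ⟨-, h2, -⟩ := Pool.Agent.Y696.CTK.final K
  obtain ⟨⟨h3, h4, -⟩, -⟩ := h2 D hD
  have hf : Finite (ED (D : K)).toAffine.Point := ht.1
  have e : AddCommGroup.torsion (ED (D : K)).toAffine.Point = ⊤ := by
    rw [eq_top_iff]
    intro x _
    exact isOfFinAddOrder_of_finite x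
  unfold tors at h4
  rw [e] at h4
  rwa [Nat.card_congr (AddSubgroup.topEquiv (G := (ED (D : K)).toAffine.Point)).toEquiv] at h4

/-- the points of order dividing three -/
lemma tor_crd {D : 𝓞 K} (hD : ClsK D) (ht : Tri D) {u : (ED (D : K)).toAffine.Point}
    (hu : 3 • u = 0) : crd u = ![0, 1, 0] ∨ crd u = ![0, 0, 1] ∨ crd u = ![0, -(D : K), 1] := by
  have hf : Finite (ED (D : K)).toAffine.Point := ht.1
  obtain ⟨T, hT, hT0, c1, c2⟩ := ex_T (Pool.Agent.Y703.XL.Inf.ne_zero hD)
  rcases three_tors (tri_tors hD ht) hT hT0 hu with rfl | rfl | rfl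
  · left; rfl
  · right; left; exact c1
  · right; right; exact c2

lemma near_three {n : ℕ} {D : Fin n → 𝓞 K} (hD : ∀ i, ClsK (D i))
    (v : HeightOneSpectrum (𝓞 K)) (hv : ((3 : ℕ) : 𝓞 K) ∈ v.asIdeal)
    (P : (i : Fin n) → ((ED (D i : K)).baseChange (v.adicCompletion K)).toAffine.Point)
    (y : (i : Fin n) → ((ED (D i : K)).baseChange K).toAffine.Point)
    (h : ∀ i (k : ℕ), ∃ z, P i = pm (ED (D i : K)) (Algebra.ofId K (v.adicCompletion K)) (y i) +
      3 ^ k • z) (i : Fin n) :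
    NearAt (D i) (v.adicCompletion K) (P i) (y i) := by
  obtain ⟨lam, hL⟩ := isLoc v hv
  have inst3 : ProperSpace (v.adicCompletion K) := Pool.Agent.Y791.BS.proper v
  have : CharZero (v.adicCompletion K) :=
    charZero_of_injective_algebraMap (algebraMap K (v.adicCompletion K)).injective
  have hD0 : ∀ i, D i ≠ 0 := fun i => (hD i).2.1.ne_zero
  obtain ⟨y', hy', h1⟩ := const_V hL.th (fun i => ff v (D i)) (fun i => nff_le v (D i))
    (fun i => ne_ff (hD0 i) v) (fun i => (ED (D i : K)).baseChange (v.adicCompletion K))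
    (funext fun i => base_ED (v.adicCompletion K) (D i))
    {fun i => pm (ED (D i : K)) (Algebra.ofId K (v.adicCompletion K)) (y i)}
    (Set.finite_singleton _) P (fun k => ⟨_, rfl, fun i => h i k⟩)
  rw [Set.mem_singleton_iff] at hy'
  subst hy'
  obtain ⟨m, hm, h2⟩ := h1 i
  exact near_of (hD i).1 hv hL hm h2

variable {F Ω M B : Type} [Field F] [Field Ω] [Field M]
  [Field B] [Algebra K F] [Algebra F Ω] [Algebra K Ω] [IsScalarTower K F Ω] [Algebra F M]
  [Algebra K M] [IsScalarTower K F M] [Algebra K B] [IsAlgClosure F Ω] [IsAlgClosure K B]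

theorem main {n : ℕ} {D : Fin n → 𝓞 K} (hD : ∀ i, ClsK (D i)) (ht : ∀ i, Tri (D i))
    (S : Set (MvPolynomial (Fin n × Fin 3) K)) (hS : ∀ f ∈ S, ∃ d, MultiHom d f)
    (U : Set (ValuationSubring F)) (hU : ∀ O ∈ U, ∀ c : K, algebraMap K F c ∈ O)
    (e : M →ₐ[F] Ω) (he : unramified F Ω U ≤ e.fieldRange)
    (P : (i : Fin n) → ((ED (D i : K)).baseChange F).toAffine.Point)
    (hPS : OnX S (fun i => crd (P i))) (s : GalSection K F M B)
    (p : ∀ v : HeightOneSpectrum (𝓞 K), Plc K M (AlgebraicClosure (v.adicCompletion K)))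
    (hp : ∀ v, s.GivenBy (v.adicCompletion K) (p v)) :
    ∃ y : (i : Fin n) → ((ED (D i : K)).baseChange K).toAffine.Point,
      (∀ i, 3 • y i = 0 ∧
        (crd (y i) = ![0, 1, 0] ∨ crd (y i) = ![0, 0, 1] ∨ crd (y i) = ![0, -(D i : K), 1])) ∧
      (∀ i (k : ℕ), ∃ Q : ((ED (D i : K)).baseChange M).toAffine.Point,
        pm (ED (D i : K)) (IsScalarTower.toAlgHom K F M) (P i) =
          pm (ED (D i : K)) (Algebra.ofId K M) (y i) + 3 ^ k • Q ∧
        ∀ g : B ≃ₐ[K] B, pm (ED (D i : K)) ((s.s g : M →ₐ[F] M).restrictScalars K) Q = Q) ∧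
      (∀ v : HeightOneSpectrum (𝓞 K), ∃ Pv : (i : Fin n) →
          ((ED (D i : K)).baseChange (v.adicCompletion K)).toAffine.Point,
        OnX S (fun i => crd (Pv i)) ∧
        (∀ i, (p v).Spec (fun j => algebraMap F M (crd (P i) j))
          (fun j => algebraMap (v.adicCompletion K) (AlgebraicClosure (v.adicCompletion K))
            (crd (Pv i) j))) ∧
        (∀ i (k : ℕ), ∃ z, Pv i = pm (ED (D i : K)) (Algebra.ofId K (v.adicCompletion K)) (y i) +
          3 ^ k • z) ∧
        (((3 : ℕ) : 𝓞 K) ∈ v.asIdeal → ∀ i, NearAt (D i) (v.adicCompletion K) (Pv i) (y i))) ∧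
      ((∀ i, ¬ (9 : 𝓞 K) ∣ D i + 2) → OnX S (fun i => crd (y i))) := by
  let t := fun i => Classical.choice (exists_tr ((D i : K)))
  have hD0 : ∀ i, (D i : K) ≠ 0 := fun i => Pool.Agent.Y703.XL.Inf.ne_zero (hD i)
  obtain ⟨y, hy1, hy2⟩ := sec_main (fun i => ED (D i : K)) (fun _ => 0) (fun i => (D i : K) ^ 2 / 4)
    (fun i => (D i : K) / 2) (fun i => ⟨t i, by
      have h4 : (4 : K) ≠ 0 := by norm_num
      rw [zero_pow (by norm_num), mul_zero, zero_add]
      exact mul_ne_zero (by norm_num) (pow_ne_zero _ (div_ne_zero (pow_ne_zero _ (hD0 i)) h4)),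
        (ht i).2⟩) (fun i => (ht i).1)
    S hS U hU e he P hPS s p hp
  have hf : ∀ i, Finite ((ED (D i : K)).baseChange K).toAffine.Point := fun i => (ht i).1
  choose u hu3 hu using fun i => split (G := ((ED (D i : K)).baseChange K).toAffine.Point)
    (tri_tors (hD i) (ht i)) (y i)
  have hloc : ∀ v : HeightOneSpectrum (𝓞 K), ∃ Pv : (i : Fin n) →
          ((ED (D i : K)).baseChange (v.adicCompletion K)).toAffine.Point,
        OnX S (fun i => crd (Pv i)) ∧
        (∀ i, (p v).Spec (fun j => algebraMap F M (crd (P i) j))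
          (fun j => algebraMap (v.adicCompletion K) (AlgebraicClosure (v.adicCompletion K))
            (crd (Pv i) j))) ∧
        (∀ i (k : ℕ), ∃ z, Pv i = pm (ED (D i : K)) (Algebra.ofId K (v.adicCompletion K)) (u i) +
          3 ^ k • z) ∧
        (((3 : ℕ) : 𝓞 K) ∈ v.asIdeal →
          ∀ i, NearAt (D i) (v.adicCompletion K) (Pv i) (u i)) := by
    intro v
    obtain ⟨Pv, h1, h2, h3⟩ := hy2 v
    have h4 : ∀ i (k : ℕ), ∃ z, Pv i =
        pm (ED (D i : K)) (Algebra.ofId K (v.adicCompletion K)) (u i) + 3 ^ k • z := by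
      intro i k
      obtain ⟨z, hz⟩ := h3 i k
      obtain ⟨w, hw⟩ := hu i k
      refine ⟨z + pm (ED (D i : K)) (Algebra.ofId K (v.adicCompletion K)) w, ?_⟩
      rw [hz, smul_add, ← map_nsmul, hw, map_add, map_nsmul]
      abel
    exact ⟨Pv, h1, h2, h4, fun hv => near_three hD v hv Pv u h4⟩
  refine ⟨u, fun i => ⟨hu3 i, tor_crd (hD i) (ht i) (hu3 i)⟩, fun i k => ?_, hloc, fun h9 => ?_⟩
  · obtain ⟨Q, h1, h2⟩ := hy1 i k
    obtain ⟨w, hw⟩ := hu i k
    refine ⟨Q + pm (ED (D i : K)) (Algebra.ofId K M) w, ?_, fun g => ?_⟩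
    · rw [h1, smul_add, ← map_nsmul, hw, map_add, map_nsmul]
      abel
    · rw [map_add, h2, pm_pm]
      congr 2
      exact congrArg (fun f => pm (ED (D i : K)) f) (Subsingleton.elim _ _)
  · obtain ⟨v, hv⟩ : ∃ v : HeightOneSpectrum (𝓞 K), ((3 : ℕ) : 𝓞 K) ∈ v.asIdeal := by
      obtain ⟨l, η, hl, hη, h2, -⟩ := ex_lam (K := K)
      refine ⟨⟨Ideal.span {l}, (Ideal.span_singleton_prime hl.ne_zero).2 hl, by
        rw [Ne, Ideal.span_singleton_eq_bot]; exact hl.ne_zero⟩, ?_⟩
      refine Ideal.mem_span_singleton.2 ⟨l * (-(η ^ 2)), ?_⟩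
      rw [hη]
      push_cast
      have h3 : η ^ 3 = 1 := by linear_combination (η - 1) * h2
      linear_combination η ^ 2 * h2 - 3 * h3
    obtain ⟨Pv, h1, -, -, h4⟩ := hloc v
    have h5 : ∀ i, Pv i = pm (ED (D i : K)) (Algebra.ofId K (v.adicCompletion K)) (u i) :=
      fun i => (h4 hv i).2 (h9 i)
    intro f hf
    have h6 := h1 f hf
    have e1 : (fun q : Fin n × Fin 3 => crd (Pv q.1) q.2) =
        fun q => algebraMap K (v.adicCompletion K) (crd (u q.1) q.2) := by
      funext q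
      rw [h5 q.1, Pool.Agent.R419.ST.crd_pm]
      rfl
    rw [e1] at h6
    have h7 := aeval_algebraMap_apply (v.adicCompletion K)
      (fun q : Fin n × Fin 3 => crd (u q.1) q.2) f
    have h8 := h7.symm.trans h6
    exact (map_eq_zero _).1 h8

end main

end Pool.Agent.H438.CT
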