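import Pool.Agent.H438.CT.Adel
import Pool.Graph.R_seed8.R395.CT.Light
import Pool.Graph.R_seed8.R413.SJ.ShaQ

/-!
# Three-power descent on products of cubic twists over the rational numbers
-/

set_option autoImplicit false
set_option linter.all false

open IsDedekindDomain NumberField WeierstrassCurve MvPolynomial

namespace Pool.Agent.H438.CT.Q

open Pool.Agent.TH954 Pool.Agent.TH942 Pool.Agent.H438.CT
open Pool.Agent.Y696.CTK (ED)
open Pool.Agent.R419.ST
open Pool.Agent.Y703.CT (Cls NoSplit WD EQ)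

open scoped Classical

section local_field

variable {K : Type} [Field K] [NumberField K] (j : 𝓞 K ≃+* ℤ)

include j in
lemma ex_int (n : 𝓞 K) : ∃ m : ℤ, n = m := by
  refine ⟨j n, ?_⟩
  apply j.injective
  simp

include j in
lemma prime_three : Prime (3 : 𝓞 K) := by
  have h : Prime (3 : ℤ) := Int.prime_three
  have h1 := (MulEquiv.prime_iff (j.symm : ℤ ≃* 𝓞 K)).2 h
  have e : (j.symm : ℤ ≃* 𝓞 K) 3 = 3 := map_ofNat j.symm 3
  rwa [e] at h1

include j in
lemma span_three (v : HeightOneSpectrum (𝓞 K)) (hv : ((3 : ℕ) : 𝓞 K) ∈ v.asIdeal) :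
    v.asIdeal = Ideal.span {(3 : 𝓞 K)} := by
  have hp : (Ideal.span {(3 : 𝓞 K)} : Ideal (𝓞 K)).IsPrime :=
    (Ideal.span_singleton_prime (prime_three j).ne_zero).2 (prime_three j)
  have hmax : (Ideal.span {(3 : 𝓞 K)} : Ideal (𝓞 K)).IsMaximal := hp.isMaximal (by
    rw [Ne, Ideal.span_singleton_eq_bot]
    exact (prime_three j).ne_zero)
  refine (hmax.eq_of_le v.isPrime.ne_top ((Ideal.span_singleton_le_iff_mem _).2 ?_)).symm
  exact_mod_cast hv

include j in
lemma ex_v : ∃ v : HeightOneSpectrum (𝓞 K), ((3 : ℕ) : 𝓞 K) ∈ v.asIdeal :=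
  ⟨⟨Ideal.span {3}, (Ideal.span_singleton_prime (prime_three j).ne_zero).2 (prime_three j), by
    rw [Ne, Ideal.span_singleton_eq_bot]; exact (prime_three j).ne_zero⟩,
    by exact_mod_cast Ideal.mem_span_singleton_self (3 : 𝓞 K)⟩

variable {v : HeightOneSpectrum (𝓞 K)} (hv : ((3 : ℕ) : 𝓞 K) ∈ v.asIdeal)

include hv

lemma three_lt : ‖(3 : v.adicCompletion K)‖ < 1 := by
  have := nlt_mem v hv
  rw [map_natCast] at this
  exact_mod_cast this

lemma th : Th (v.adicCompletion K) := by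
  have h3 := three_lt hv
  refine ⟨le_antisymm u2 ?_, ?_, h3⟩
  · by_contra hcon
    rw [not_le] at hcon
    have h6 : ‖(1 : v.adicCompletion K)‖ < 1 := by
      have e : (1 : v.adicCompletion K) = 3 - 2 := by norm_num
      rw [e]
      exact usub_lt h3 hcon
    rw [norm_one] at h6
    exact lt_irrefl _ h6
  · rw [norm_pos_iff]
    have : CharZero (v.adicCompletion K) :=
      charZero_of_injective_algebraMap (algebraMap K (v.adicCompletion K)).injective
    exact three_ne_zero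

include j in
lemma res : Res (v.adicCompletion K) := by
  refine res_of v fun n => ?_
  rw [span_three j v hv]
  simp only [Ideal.mem_span_singleton]
  obtain ⟨m, rfl⟩ := ex_int j n
  have h3 : m % 3 = 0 ∨ m % 3 = 1 ∨ m % 3 = 2 := by omega
  have key : ∀ a : ℤ, 3 ∣ a → (3 : 𝓞 K) ∣ ((a : ℤ) : 𝓞 K) := by
    rintro a ⟨b, rfl⟩
    exact ⟨b, by push_cast; ring⟩
  rcases h3 with h | h | h
  · left; exact key m (by omega)
  · right; left
    have := key (m - 1) (by omega)
    push_cast at this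
    exact this
  · right; right
    have := key (m + 1) (by omega)
    push_cast at this
    exact this

include j in
lemma disc (x : v.adicCompletion K) (hx : ‖x‖ < 1) : ‖x‖ ≤ ‖(3 : v.adicCompletion K)‖ := by
  have h := disc_of v (prime_three j).ne_zero (span_three j v hv) x hx
  have e : ff v (3 : 𝓞 K) = 3 := map_ofNat _ 3
  rwa [e] at h

/-- integers -/
lemma int_norm (m : ℤ) : ‖(m : v.adicCompletion K)‖ ≤ 1 := by
  have := nff_le v (m : 𝓞 K)
  rwa [map_intCast] at this

lemma int_lt {m : ℤ} (h : (3 : ℤ) ∣ m) : ‖(m : v.adicCompletion K)‖ < 1 := by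
  obtain ⟨c, rfl⟩ := h
  push_cast
  rw [norm_mul]
  have h1 := three_lt hv
  have h2 := int_norm hv c
  nlinarith [norm_nonneg (3 : v.adicCompletion K), norm_nonneg (c : v.adicCompletion K)]

lemma int_eq {m : ℤ} (h : ¬ (3 : ℤ) ∣ m) : ‖(m : v.adicCompletion K)‖ = 1 := by
  refine le_antisymm (int_norm hv m) ?_
  by_contra hcon
  rw [not_le] at hcon
  have hc : IsCoprime (3 : ℤ) m := (Int.prime_three.coprime_iff_not_dvd).2 h
  obtain ⟨a, b, hab⟩ := hc
  have h1 : ‖(1 : v.adicCompletion K)‖ < 1 := by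
    have e : (1 : v.adicCompletion K) = ((a * 3 : ℤ) : v.adicCompletion K) + ((b * m : ℤ) : _) := by
      rw [← Int.cast_add, hab, Int.cast_one]
    rw [e]
    refine uadd_lt (int_lt hv (Dvd.intro_left a rfl)) ?_
    push_cast
    rw [norm_mul]
    have h2 := int_norm hv b
    nlinarith [norm_nonneg (b : v.adicCompletion K), norm_nonneg (m : v.adicCompletion K)]
  rw [norm_one] at h1
  exact lt_irrefl _ h1

/-- an integer at most as large as nine is divisible by nine -/
lemma nine_dvd {m : ℤ} (h : ‖(m : v.adicCompletion K)‖ ≤ ‖(9 : v.adicCompletion K)‖) :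
    (9 : ℤ) ∣ m := by
  have h3 := three_lt hv
  have hpos := (th hv).three_pos
  have e9 : ‖(9 : v.adicCompletion K)‖ = ‖(3 : v.adicCompletion K)‖ ^ 2 := by
    rw [← norm_pow]
    norm_num
  rw [e9] at h
  have hm : (3 : ℤ) ∣ m := by
    by_contra hcon
    rw [int_eq hv hcon] at h
    nlinarith
  obtain ⟨c, rfl⟩ := hm
  have hc : (3 : ℤ) ∣ c := by
    by_contra hcon
    push_cast at h
    rw [norm_mul, int_eq hv hcon] at h
    nlinarith
  obtain ⟨e, rfl⟩ := hc
  exact ⟨e, by ring⟩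

end local_field

section curves

variable {K : Type} [Field K] [NumberField K] (j : 𝓞 K ≃+* ℤ)

/-- the conclusion for one component -/
def NearQ (D : ℕ) (L : Type) [Field L] [Algebra K L]
    (P : ((ED (D : K)).baseChange L).toAffine.Point)
    (y : ((ED (D : K)).baseChange K).toAffine.Point) : Prop :=
  2 • P = 2 • pm (ED (D : K)) (Algebra.ofId K L) y ∧
    (D % 9 ≠ 2 → D % 9 ≠ 7 → P = pm (ED (D : K)) (Algebra.ofId K L) y)

lemma base_Q (L : Type) [Field L] [Algebra K L] (D : ℕ) :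
    (ED (D : K)).baseChange L = WE ((D : ℕ) : L) := by
  show (ED (D : K)).map (algebraMap K L) = _
  simp [ED, WE, WeierstrassCurve.map]

include j in
lemma near_of {D : ℕ} (hD : ¬ 3 ∣ D) {v : HeightOneSpectrum (𝓞 K)}
    (hv : ((3 : ℕ) : 𝓞 K) ∈ v.asIdeal)
    {P : ((ED (D : K)).baseChange (v.adicCompletion K)).toAffine.Point}
    {y : ((ED (D : K)).baseChange K).toAffine.Point} {m : ℕ} (hm : ¬ 3 ∣ m)
    (h : m • (P - pm (ED (D : K)) (Algebra.ofId K (v.adicCompletion K)) y) = 0) :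
    NearQ D (v.adicCompletion K) P y := by
  have inst3 : ProperSpace (v.adicCompletion K) := Pool.Agent.Y791.BS.proper v
  have hTh := th hv
  have hd : ‖((D : ℕ) : v.adicCompletion K)‖ ≤ 1 := by
    have := int_norm hv D
    exact_mod_cast this
  have h4 : (4 : v.adicCompletion K) ≠ 0 := hTh.four_ne
  have ea : ((D : ℕ) : v.adicCompletion K) ^ 2 / 4 - 1 =
      (((D : ℤ) ^ 2 - 4 : ℤ) : v.adicCompletion K) / 4 := by
    push_cast
    field_simp
  have hD3 : (3 : ℤ) ∣ (D : ℤ) ^ 2 - 4 := by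
    have h5 : (D : ℤ) % 3 = 1 ∨ (D : ℤ) % 3 = 2 := by omega
    apply Int.dvd_of_emod_eq_zero
    rcases h5 with h5 | h5 <;> rw [Int.sub_emod, pow_two, Int.mul_emod, h5] <;> rfl
  have hc : ‖((D : ℕ) : v.adicCompletion K) ^ 2 / 4 - 1‖ < 1 := by
    rw [ea, norm_div, hTh.four, div_one]
    exact int_lt hv hD3
  have key : ∀ (V : WeierstrassCurve (v.adicCompletion K)), V = WE ((D : ℕ) : v.adicCompletion K) →
      ∀ T : V.toAffine.Point, m • T = 0 → 2 • T = 0 ∧
        (T ≠ 0 → ‖((D : ℕ) : v.adicCompletion K) ^ 2 / 4 - 1‖ ≤ ‖(9 : v.adicCompletion K)‖) := by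
    rintro _ rfl T hT
    obtain ⟨h1, h2⟩ := two_ofQ hTh (res j hv) (disc j hv) (si_WS hTh hd) rfl hc
      (T := isoS hTh.two_ne _ T) ⟨m, hm, by rw [← map_nsmul, hT, map_zero]⟩
    refine ⟨?_, fun hT => h2 fun h0 => hT ?_⟩
    · apply (isoS hTh.two_ne _).injective
      rw [map_nsmul, map_zero]
      exact h1
    · apply (isoS hTh.two_ne _).injective
      rw [map_zero]
      exact h0
  obtain ⟨h1, h2⟩ := key _ (base_Q _ D) _ h
  refine ⟨?_, fun h5 h6 => ?_⟩
  · rw [smul_sub, sub_eq_zero] at h1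
    exact h1
  · by_contra hne
    have h7 := h2 (sub_ne_zero.2 hne)
    rw [ea, norm_div, hTh.four, div_one] at h7
    have h8 := nine_dvd hv h7
    have h9 : (D : ℤ) % 9 = ((D % 9 : ℕ) : ℤ) := by push_cast; rfl
    have h10 : ((D : ℤ) ^ 2 - 4) % 9 = 0 := Int.emod_eq_zero_of_dvd h8
    have h11 : ((D : ℤ) ^ 2 - 4) % 9 = (((D : ℤ) % 9) ^ 2 - 4) % 9 := by
      rw [Int.sub_emod, pow_two, Int.mul_emod, ← pow_two, ← Int.sub_emod]
    rw [h11, h9] at h10
    have h12 : D % 9 < 9 := Nat.mod_lt _ (by norm_num)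
    have h13 : D % 9 % 3 ≠ 0 := by omega
    have h14 : ∀ r : ℕ, r < 9 → r % 3 ≠ 0 → r ≠ 2 → r ≠ 7 → ((r : ℤ) ^ 2 - 4) % 9 ≠ 0 := by
      decide
    exact h14 _ h12 h13 h5 h6 h10

/-- the group of the rational points and the Tate-Shafarevich group -/
structure GoodK (K : Type) [Field K] [NumberField K] (D : ℕ) : Prop where
  ne : D ≠ 0
  three : ¬ 3 ∣ D
  fin : Finite (ED (D : K)).toAffine.Point
  card : padicValNat 3 (Nat.card (ED (D : K)).toAffine.Point) = 1
  sha : Sha3 (ED (D : K))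

lemma GoodK.tor_crd {D : ℕ} (h : GoodK K D) {u : (ED (D : K)).toAffine.Point}
    (hu : 3 • u = 0) : crd u = ![0, 1, 0] ∨ crd u = ![0, 0, 1] ∨ crd u = ![0, -(D : K), 1] := by
  have h1 := h.fin
  have hD0 : (D : K) ≠ 0 := by exact_mod_cast h.ne
  obtain ⟨T, hT, hT0, c1, c2⟩ := ex_T hD0
  rcases three_tors h.card hT hT0 hu with rfl | rfl | rfl
  · left; rfl
  · right; left; exact c1
  · right; right; exact c2

variable {n : ℕ}

include j in
/-- **The Selmer set of some level is empty.** -/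
theorem fin_level {D : Fin n → ℕ} (hg : ∀ i, GoodK K (D i))
    (S : Set (MvPolynomial (Fin n × Fin 3) K)) (hS : ∀ f ∈ S, ∃ d, MultiHom d f)
    (v : HeightOneSpectrum (𝓞 K)) (hv : ((3 : ℕ) : 𝓞 K) ∈ v.asIdeal)
    (hX : ∀ P : (i : Fin n) → ((ED (D i : K)).baseChange (v.adicCompletion K)).toAffine.Point,
      OnX S (fun i => crd (P i)) →
      ¬ ∃ y : (i : Fin n) → ((ED (D i : K)).baseChange K).toAffine.Point,
        (∀ i, 3 • y i = 0) ∧ ∀ i, NearQ (D i) (v.adicCompletion K) (P i) (y i)) :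
    ∃ k : ℕ, ∀ P : (v : HeightOneSpectrum (𝓞 K)) → (i : Fin n) →
      ((ED (D i : K)).baseChange (v.adicCompletion K)).toAffine.Point,
      OnX S (fun i => crd (P v i)) → ¬ Lifts (fun i => ED (D i : K)) (3 ^ k) P := by
  by_contra hcon
  push Not at hcon
  have hL := th hv
  have inst3 : ProperSpace (v.adicCompletion K) := Pool.Agent.Y791.BS.proper v
  have : CharZero (v.adicCompletion K) :=
    charZero_of_injective_algebraMap (algebraMap K (v.adicCompletion K)).injective
  have hfin : ∀ i, Finite ((ED (D i : K)).baseChange K).toAffine.Point := fun i => (hg i).fin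
  let Y : Set ((i : Fin n) → ((ED (D i : K)).baseChange (v.adicCompletion K)).toAffine.Point) :=
    (fun (y : (i : Fin n) → ((ED (D i : K)).baseChange K).toAffine.Point) i =>
      pm (ED (D i : K)) (Algebra.ofId K (v.adicCompletion K)) (y i)) '' {y | ∀ i, 3 • y i = 0}
  have hY : Y.Finite := Set.Finite.image _ (Set.toFinite _)
  let θ : K →+* v.adicCompletion K := algebraMap K (v.adicCompletion K)
  obtain ⟨P, hP, y', ⟨y, hy3, hy⟩, h1⟩ := lim_V hL (fun i => ((D i : ℕ) : v.adicCompletion K))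
    (fun i => by exact_mod_cast int_norm hv (D i))
    (fun i => by exact_mod_cast (hg i).ne)
    (fun i => (ED (D i : K)).baseChange (v.adicCompletion K))
    (funext fun i => base_Q (v.adicCompletion K) (D i)) {f | ∃ h ∈ S, f = map θ h}
    (by
      rintro f ⟨h, hh, rfl⟩
      obtain ⟨d, hd⟩ := hS h hh
      exact ⟨d, fun m hm => hd m (MvPolynomial.support_map_subset _ _ hm)⟩) Y hY (fun k => by
      obtain ⟨P, hP, ξ, g1, g2, g3⟩ := hcon k
      have hT : ∀ i, ∃ (R : AlgPt (ED (D i : K)) K)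
          (y : ((ED (D i : K)).baseChange K).toAffine.Point),
          incl (ED (D i : K)) K y = 3 ^ k • R ∧ ∀ σ, ξ i σ = act (ED (D i : K)) σ R - R := by
        intro i
        refine coc_three k ((hg i).sha k) (ξ i) (g1 i) (g2 i) (fun u => ?_)
          (fun w => triv_inf (g1 i) (g2 i) w)
        obtain ⟨ι, Q, -, h⟩ := g3 u
        exact ⟨ι, Q i, fun σ τ hστ => h i σ τ hστ⟩
      choose R y hy hR using hT
      choose u hu3 hu using fun i => split (G := ((ED (D i : K)).baseChange K).toAffine.Point)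
        (hg i).card (y i)
      obtain ⟨ι, Q, hPQ, hQ⟩ := g3 v
      refine ⟨P v, ?_, _, ⟨u, hu3, rfl⟩, fun i => ?_⟩
      · rintro f ⟨h, hh, rfl⟩
        have h1 := hP h hh
        rw [aeval_def] at h1
        rw [eval_map]
        exact h1
      · obtain ⟨z, hz⟩ := shift (hy i) (hR i) ι (hPQ i) fun σ τ hστ => hQ i σ τ hστ
        obtain ⟨w, hw⟩ := hu i k
        refine ⟨z + pm (ED (D i : K)) (Algebra.ofId K (v.adicCompletion K)) w, ?_⟩
        rw [hz, smul_add, ← map_nsmul, hw, map_add, map_nsmul]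
        abel)
  refine hX P ?_ ⟨y, hy3, fun i => ?_⟩
  · intro f hf
    have h2 := hP (map θ f) ⟨f, hf, rfl⟩
    rw [eval_map] at h2
    rw [aeval_def]
    exact h2
  · obtain ⟨m, hm, h2⟩ := h1 i
    rw [← hy] at h2
    exact near_of j (hg i).three hv hm h2

end curves

section rat

lemma eq_curve (D : ℕ) : EQ (WD (D : ℤ)) = ED (D : ℚ) := by
  unfold EQ WD ED
  ext <;> simp [WeierstrassCurve.map]

/-- the group of the rational points and the Tate-Shafarevich group -/
lemma goodQ {D : ℕ} (hC : Cls D) (hN : NoSplit D) : GoodK ℚ D := by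
  obtain ⟨h1, h2, h3⟩ := Pool.Agent.R395.CT.triv3_of hC hN
  rw [eq_curve] at h1 h2 h3
  refine ⟨hC.1.1, hC.1.2.1, h1, h2, fun k s hs => ?_⟩
  have h4 := h3 k (Pool.Agent.R413.SJ.ShaQ.iso (ED (D : ℚ)) s)
    (by rw [← map_nsmul, hs, map_zero])
  exact (map_eq_zero_iff (Pool.Agent.R413.SJ.ShaQ.iso (ED (D : ℚ)))
    (Pool.Agent.R413.SJ.ShaQ.iso (ED (D : ℚ))).injective).1 h4

end rat

end Pool.Agent.H438.CT.Q
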