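import Pool.Agent.H438.CT.Iso

/-!
# Three-power descent for sections
-/

set_option autoImplicit false
set_option linter.all false

open IsDedekindDomain NumberField WeierstrassCurve MvPolynomial

namespace Pool.Agent.H438.CT

open Pool.Agent.TH954 Pool.Agent.TH942 Pool.Agent.W620.SC
open Pool.Agent.R419.ST (Sha3 coc_three)
open Pool.Agent.R425.D (crd_incl' onX_hom)

open scoped Classical

section coc

variable {K : Type} [Field K] {M : Type} [Field M] [Algebra K M] (A : SAct K M)
  (E : WeierstrassCurve K)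

/-- the action on points -/
noncomputable def pt (τ : AlgebraicClosure K ≃ₐ[K] AlgebraicClosure K) :
    (E.baseChange M).toAffine.Point →+ (E.baseChange M).toAffine.Point :=
  pm E ((A.s τ : M ≃ₐ[K] M) : M →ₐ[K] M)

lemma pt_mul (σ τ : AlgebraicClosure K ≃ₐ[K] AlgebraicClosure K)
    (T : (E.baseChange M).toAffine.Point) :
    pt A E (σ * τ) T = pt A E σ (pt A E τ T) := by
  unfold pt
  rw [pm_pm]
  congr 2
  apply AlgHom.ext
  intro x
  change A.s (σ * τ) x = A.s σ (A.s τ x)
  rw [map_mul]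
  rfl

lemma pt_j (τ : AlgebraicClosure K ≃ₐ[K] AlgebraicClosure K) (T : AlgPt E K) :
    pt A E τ (pm E A.j T) = pm E A.j (act E τ T) := by
  unfold pt act
  rw [pm_pm, pm_pm]
  congr 2
  apply AlgHom.ext
  intro x
  exact A.hj τ x

lemma pt_cont (T : (E.baseChange M).toAffine.Point) :
    ∃ F : IntermediateField K (AlgebraicClosure K), FiniteDimensional K F ∧
      ∀ τ : AlgebraicClosure K ≃ₐ[K] AlgebraicClosure K, (∀ z ∈ F, τ z = z) →
        pt A E τ T = T := by
  rcases T with _ | ⟨x, y, h⟩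
  · exact ⟨⊥, inferInstance, fun τ _ => rfl⟩
  · obtain ⟨F1, hF1, h1⟩ := A.cont x
    obtain ⟨F2, hF2, h2⟩ := A.cont y
    refine ⟨F1 ⊔ F2, inferInstance, fun τ hτ => ?_⟩
    obtain ⟨k, e⟩ := pm_some (E := E) ((A.s τ : M ≃ₐ[K] M) : M →ₐ[K] M) h
    unfold pt
    rw [e, Affine.Point.some.injEq]
    exact ⟨h1 τ (fun z hz => hτ z ((le_sup_left : F1 ≤ F1 ⊔ F2) hz)),
      h2 τ (fun z hz => hτ z ((le_sup_right : F2 ≤ F1 ⊔ F2) hz))⟩

/-- the cocycle of a division point -/
theorem exists_coc {N : ℕ} {Q P : (E.baseChange M).toAffine.Point} (hQ : N • Q = P)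
    (hP : ∀ τ, pt A E τ P = P)
    (htor : ∀ T : (E.baseChange M).toAffine.Point, N • T = 0 → ∃ T0, pm E A.j T0 = T) :
    ∃ ξ : (AlgebraicClosure K ≃ₐ[K] AlgebraicClosure K) → AlgPt E K,
      IsCocycle E ξ ∧ (∀ σ, N • ξ σ = 0) ∧
      ∀ σ, pm E A.j (ξ σ) = pt A E σ Q - Q := by
  have h1 : ∀ σ, ∃ T0, pm E A.j T0 = pt A E σ Q - Q := by
    intro σ
    apply htor
    have h2 : N • pt A E σ Q = pt A E σ P := by
      rw [← hQ]
      exact (map_nsmul _ _ _).symm
    rw [smul_sub, h2, hP, hQ, sub_self]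
  choose ξ hξ using h1
  refine ⟨ξ, ⟨?_, ?_⟩, ?_, hξ⟩
  · intro σ τ
    apply pm_injective (E := E) A.j
    rw [map_add, hξ, hξ, ← pt_j, hξ, pt_mul, map_sub]
    abel
  · obtain ⟨F, hF, h⟩ := pt_cont A E Q
    refine ⟨F, hF, fun σ τ hστ => ?_⟩
    apply pm_injective (E := E) A.j
    rw [hξ, hξ]
    have h4 : pt A E (σ⁻¹ * τ) Q = Q := by
      apply h
      intro z hz
      change σ.symm (τ z) = z
      rw [← hστ z hz, σ.symm_apply_apply]
    have h5 : pt A E τ Q = pt A E σ Q := by
      rw [show τ = σ * (σ⁻¹ * τ) by group, pt_mul, h4]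
    rw [h5]
  · intro σ
    apply pm_injective (E := E) A.j
    rw [map_nsmul, hξ, map_zero, smul_sub, hQ]
    have h2 : N • pt A E σ Q = pt A E σ P := by
      rw [← hQ]
      exact (map_nsmul _ _ _).symm
    rw [h2, hP, sub_self]

variable {A E}

lemma red_pt {L : Type} [Field L] [Algebra K L] {pl : Plc K M (AlgebraicClosure L)}
    (hpl : GeoPlc A pl)
    {red : (E.baseChange M).toAffine.Point →+ (E.baseChange (AlgebraicClosure L)).toAffine.Point}
    (hr : IsRed E pl red) {σ : AlgebraicClosure L ≃ₐ[L] AlgebraicClosure L}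
    {τ : AlgebraicClosure K ≃ₐ[K] AlgebraicClosure K} (h : Compat (pl.iot A.j) σ τ)
    (T : (E.baseChange M).toAffine.Point) : red (pt A E τ T) = act E σ (red T) :=
  hr.act ((A.s τ : M ≃ₐ[K] M) : M →ₐ[K] M)
    ((σ : AlgebraicClosure L →ₐ[L] AlgebraicClosure L).restrictScalars K)
    (fun x => hpl σ τ h x) T

lemma red_fixed {L : Type} [Field L] [CharZero L] [Algebra K L]
    {pl : Plc K M (AlgebraicClosure L)} (hpl : GeoPlc A pl)
    {red : (E.baseChange M).toAffine.Point →+ (E.baseChange (AlgebraicClosure L)).toAffine.Point}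
    (hr : IsRed E pl red) {T : (E.baseChange M).toAffine.Point} (hT : ∀ τ, pt A E τ T = T) :
    ∃ z : (E.baseChange L).toAffine.Point, incl E L z = red T := by
  refine exists_of_fixed _ (fun σ => ?_)
  obtain ⟨τ, hτ⟩ := exists_compat (pl.iot A.j) σ
  rw [← red_pt hpl hr hτ, hT]

lemma red_const {L : Type} [Field L] [Algebra K L] {pl : Plc K M (AlgebraicClosure L)}
    {red : (E.baseChange M).toAffine.Point →+ (E.baseChange (AlgebraicClosure L)).toAffine.Point}
    (hr : IsRed E pl red) (y : (E.baseChange K).toAffine.Point) :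
    red (pm E (Algebra.ofId K M) y) = incl E L (pm E (Algebra.ofId K L) y) := by
  rw [hr.pm (Algebra.ofId K M) (Algebra.ofId K (AlgebraicClosure L)) (fun z => pl.comm z)]
  unfold incl
  rw [pm_pm]
  congr 2

/-- an odd multiple of a cocycle is trivial over the completions at the infinite places -/
lemma triv_inf {ξ : (AlgebraicClosure K ≃ₐ[K] AlgebraicClosure K) → AlgPt E K}
    (hξ : IsCocycle E ξ) {k : ℕ} (h3 : ∀ σ, 3 ^ k • ξ σ = 0) (w : InfinitePlace K) :
    TrivialOver E ξ w.Completion := by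
  obtain ⟨ι, Q, hQ⟩ := trivial_two hξ.1 w.Completion (twoGal_inf w)
  obtain ⟨m, hm⟩ : ∃ m, 3 ^ k = 2 * m + 1 := (Odd.pow (by decide : Odd 3))
  refine ⟨ι, -(m • Q), fun σ τ h => ?_⟩
  have h1 := hQ σ τ h
  have h2 : ξ τ = -(m • (2 • ξ τ)) := by
    rw [eq_neg_iff_add_eq_zero, ← h3 τ, hm, add_smul, one_smul, mul_comm 2 m, mul_smul]
    abel
  rw [h2, map_neg, map_nsmul, h1]
  have e1 : act E σ (-(m • Q)) = -(m • act E σ Q) := by
    unfold act
    rw [map_neg, map_nsmul]
  rw [e1, smul_sub]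
  abel

end coc

section main

variable {K : Type} [Field K] [NumberField K] {F Ω M B : Type} [Field F] [Field Ω] [Field M]
  [Field B] [Algebra K F] [Algebra F Ω] [Algebra K Ω] [IsScalarTower K F Ω] [Algebra F M]
  [Algebra K M] [IsScalarTower K F M] [Algebra K B] [IsAlgClosure F Ω] [IsAlgClosure K B]

/-- the hypotheses on one curve -/
structure Data (E : WeierstrassCurve K) (a b c : K) where
  t : Tr E a b c
  disc : 4 * a ^ 3 + 27 * b ^ 2 ≠ 0
  sha : Sha3 E

/-- the points of `E` over the algebraic extension `M` of `F`, fixed by the section -/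
theorem one {E : WeierstrassCurve K} {a b c : K} (d : Data E a b c)
    (U : Set (ValuationSubring F)) (hU : ∀ O ∈ U, ∀ c : K, algebraMap K F c ∈ O)
    (e : M →ₐ[F] Ω) (he : unramified F Ω U ≤ e.fieldRange)
    (P : (E.baseChange F).toAffine.Point) (A : SAct K M)
    (hAF : ∀ (τ : AlgebraicClosure K ≃ₐ[K] AlgebraicClosure K) (x : F),
      A.s τ (algebraMap F M x) = algebraMap F M x)
    (p : ∀ v : HeightOneSpectrum (𝓞 K), Plc K M (AlgebraicClosure (v.adicCompletion K)))
    (hp : ∀ v, GeoPlc A (p v)) (k : ℕ) :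
    ∃ (Q : (E.baseChange M).toAffine.Point) (y : (E.baseChange K).toAffine.Point),
      (∀ τ, pt A E τ Q = Q) ∧
      pm E (IsScalarTower.toAlgHom K F M) P = pm E (Algebra.ofId K M) y + 3 ^ k • Q := by
  have hΩ1 : IsAlgClosed Ω := IsAlgClosure.isAlgClosed F
  have hcΩ : CharZero Ω := charZero_of_injective_algebraMap (algebraMap K Ω).injective
  have hcv' : ∀ v : HeightOneSpectrum (𝓞 K), CharZero (AlgebraicClosure (v.adicCompletion K)) :=
    fun v => by
      have : CharZero (v.adicCompletion K) :=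
        charZero_of_injective_algebraMap (algebraMap K (v.adicCompletion K)).injective
      exact charZero_of_injective_algebraMap
        (algebraMap (v.adicCompletion K) (AlgebraicClosure (v.adicCompletion K))).injective
  have hpos : 1 ≤ 3 ^ k := Nat.one_le_pow _ _ (by norm_num)
  obtain ⟨R, hR⟩ := div_unram d.t d.disc ((e.restrictScalars K).comp A.j) U hU e he P hpos
  have hPf : ∀ τ, pt A E τ (pm E (IsScalarTower.toAlgHom K F M) P) =
      pm E (IsScalarTower.toAlgHom K F M) P := by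
    intro τ
    unfold pt
    rw [pm_pm]
    congr 2
    apply AlgHom.ext
    intro x
    exact hAF τ x
  obtain ⟨ξ, hξ, hξN, hξj⟩ := exists_coc A E hR hPf
    (fun T hT => tors_mem d.t d.disc (e.restrictScalars K) A.j _ hpos T hT)
  have hloc : ∀ v : HeightOneSpectrum (𝓞 K), TrivialOver E ξ (v.adicCompletion K) := by
    intro v
    obtain ⟨red, hr⟩ := exists_red d.t d.disc (p v)
    refine ⟨(p v).iot A.j, red R, fun σ τ h => ?_⟩
    rw [← hr.pm A.j ((p v).iot A.j) ((p v).iot_spec A.j), hξj, map_sub, red_pt (hp v) hr h]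
  obtain ⟨R0, y, hy, h0⟩ := coc_three k (d.sha k) ξ hξ hξN hloc (fun w => triv_inf hξ hξN w)
  refine ⟨R - pm E A.j R0, y, fun τ => ?_, ?_⟩
  · rw [map_sub, pt_j]
    have e1 : pt A E τ R = R + pm E A.j (ξ τ) := by rw [hξj]; abel
    have e2 : act E τ R0 = R0 + ξ τ := by rw [h0 τ]; abel
    rw [e1, e2, map_add]
    abel
  · have e3 : 3 ^ k • pm E A.j R0 = pm E (Algebra.ofId K M) y := by
      rw [← map_nsmul, ← hy]
      unfold incl
      rw [pm_pm]
      congr 2
      exact Subsingleton.elim _ _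
    rw [smul_sub, hR, e3]
    abel

/-- **Three-power descent for sections.** -/
theorem sec_main {n : ℕ} (E : Fin n → WeierstrassCurve K) (a b c : Fin n → K)
    (d : ∀ i, Data (E i) (a i) (b i) (c i))
    (hfin : ∀ i, Finite ((E i).baseChange K).toAffine.Point)
    (S : Set (MvPolynomial (Fin n × Fin 3) K)) (hS : ∀ f ∈ S, ∃ d, MultiHom d f)
    (U : Set (ValuationSubring F)) (hU : ∀ O ∈ U, ∀ c : K, algebraMap K F c ∈ O)
    (e : M →ₐ[F] Ω) (he : unramified F Ω U ≤ e.fieldRange)
    (P : (i : Fin n) → ((E i).baseChange F).toAffine.Point)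
    (hPS : OnX S (fun i => crd (P i))) (s : GalSection K F M B)
    (p : ∀ v : HeightOneSpectrum (𝓞 K), Plc K M (AlgebraicClosure (v.adicCompletion K)))
    (hp : ∀ v, s.GivenBy (v.adicCompletion K) (p v)) :
    ∃ y : (i : Fin n) → ((E i).baseChange K).toAffine.Point,
      (∀ i (k : ℕ), ∃ Q : ((E i).baseChange M).toAffine.Point,
        pm (E i) (IsScalarTower.toAlgHom K F M) (P i) =
          pm (E i) (Algebra.ofId K M) (y i) + 3 ^ k • Q ∧
        ∀ g : B ≃ₐ[K] B, pm (E i) ((s.s g : M →ₐ[F] M).restrictScalars K) Q = Q) ∧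
      ∀ v : HeightOneSpectrum (𝓞 K), ∃ Pv : (i : Fin n) →
          ((E i).baseChange (v.adicCompletion K)).toAffine.Point,
        OnX S (fun i => crd (Pv i)) ∧
        (∀ i, (p v).Spec (fun j => algebraMap F M (crd (P i) j))
          (fun j => algebraMap (v.adicCompletion K) (AlgebraicClosure (v.adicCompletion K))
            (crd (Pv i) j))) ∧
        ∀ i (k : ℕ), ∃ z, Pv i = pm (E i) (Algebra.ofId K (v.adicCompletion K)) (y i) +
          3 ^ k • z := by
  have hΩ2 : Algebra.IsAlgebraic F Ω := IsAlgClosure.isAlgebraic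
  have hMalg : Algebra.IsAlgebraic F M := Algebra.IsAlgebraic.of_injective e e.injective
  have hcv : ∀ v : HeightOneSpectrum (𝓞 K), CharZero (v.adicCompletion K) := fun v =>
    charZero_of_injective_algebraMap (algebraMap K (v.adicCompletion K)).injective
  have hcv' : ∀ v : HeightOneSpectrum (𝓞 K), CharZero (AlgebraicClosure (v.adicCompletion K)) :=
    fun v => charZero_of_injective_algebraMap
      (algebraMap (v.adicCompletion K) (AlgebraicClosure (v.adicCompletion K))).injective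
  set A := toSAct s with hA
  have hpl : ∀ v, GeoPlc A (p v) := by
    intro v σ τ hστ x
    refine hp v σ ((eqv K B).autCongr τ) ?_ x _ ⟨x.2, rfl⟩
    intro z c hc
    obtain ⟨y, rfl⟩ := (eqv K B).surjective z
    have e1 : (p v).val (A.j y) ((p v).iot A.j y) := Plc.val_j _ y
    have e2 : (p v).val (A.j (τ y)) ((p v).iot A.j (τ y)) := Plc.val_j _ (τ y)
    have e3 : s.j ((eqv K B).autCongr τ (eqv K B y)) = A.j (τ y) := by
      change s.j (eqv K B (τ ((eqv K B).symm (eqv K B y)))) = _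
      rw [AlgEquiv.symm_apply_apply]
      rfl
    have e4 : (p v).iot A.j y = c := e1.unique hc
    rw [e3, ← e4, ← hστ y]
    exact e2
  have hAF : ∀ (τ : AlgebraicClosure K ≃ₐ[K] AlgebraicClosure K) (x : F),
      A.s τ (algebraMap F M x) = algebraMap F M x :=
    fun τ x => (s.s ((eqv K B).autCongr τ)).commutes x
  set P' : (i : Fin n) → ((E i).baseChange M).toAffine.Point :=
    fun i => pm (E i) (IsScalarTower.toAlgHom K F M) (P i) with hP'
  have hP'S : OnX S (fun i => crd (P' i)) := onX_hom _ hPS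
  have hP'f : ∀ i τ, pt A (E i) τ (P' i) = P' i := by
    intro i τ
    change pm (E i) _ (pm (E i) _ (P i)) = pm (E i) _ (P i)
    rw [pm_pm]
    congr 2
    apply AlgHom.ext
    intro x
    exact hAF τ x
  choose Q y hQf hQ using fun (k : ℕ) (i : Fin n) =>
    one (d i) U hU e he (P i) A hAF p hpl k
  -- one tuple of rational points for all levels
  have hfin' : ∀ i, Finite ((E i).baseChange K).toAffine.Point := hfin
  obtain ⟨y₀, hy₀⟩ : ∃ y₀, ∀ k, ∃ k' ≥ k, y k' = y₀ := by
    obtain ⟨y₀, h⟩ := Finite.exists_infinite_fiber y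
    refine ⟨y₀, fun k => ?_⟩
    have h2 : (y ⁻¹' {y₀}).Infinite := Set.infinite_coe_iff.1 h
    obtain ⟨k', h3, h4⟩ := h2.exists_gt k
    exact ⟨k', h4.le, h3⟩
  have key : ∀ i (k : ℕ), ∃ Q : ((E i).baseChange M).toAffine.Point,
      (∀ τ, pt A (E i) τ Q = Q) ∧ P' i = pm (E i) (Algebra.ofId K M) (y₀ i) + 3 ^ k • Q := by
    intro i k
    obtain ⟨k', hk, hyk⟩ := hy₀ k
    refine ⟨3 ^ (k' - k) • Q k' i, fun τ => ?_, ?_⟩
    · rw [map_nsmul, hQf]
    · rw [← mul_smul, ← pow_add, Nat.add_sub_cancel' hk, ← hyk]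
      exact hQ k' i
  refine ⟨y₀, fun i k => ?_, fun v => ?_⟩
  · obtain ⟨Q, h1, h2⟩ := key i k
    refine ⟨Q, h2, fun g => ?_⟩
    have h3 : pt A (E i) ((eqv K B).autCongr.symm g) =
        pm (E i) ((s.s g : M →ₐ[F] M).restrictScalars K) := by
      unfold pt
      congr 1
      apply AlgHom.ext
      intro z
      exact toSAct_s s g z
    rw [← h3]
    exact h1 _
  · choose red hr using fun i => exists_red (d i).t (d i).disc (p v)
    choose Pv hPv using fun i => red_fixed (hpl v) (hr i) (hP'f i)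
    have hcr : ∀ i, ∃ u : M, u ≠ 0 ∧ ∀ j, ∃ h : u * crd (P' i) j ∈ (p v).W,
        (p v).ρ ⟨u * crd (P' i) j, h⟩ = crd (red i (P' i)) j := fun i => (hr i).crd (P' i)
    have hcPv : ∀ i j, crd (red i (P' i)) j =
        algebraMap (v.adicCompletion K) (AlgebraicClosure (v.adicCompletion K))
          (crd (Pv i) j) := by
      intro i j
      rw [← hPv i]
      exact crd_incl' _ _
    refine ⟨Pv, ?_, fun i => ?_, fun i k => ?_⟩
    · have h3 : OnX S (fun i => crd (red i (P' i))) := onX_red (p v) hS hcr hP'S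
      intro f hf
      have h4 := h3 f hf
      have h7 := aeval_algebraMap_apply (AlgebraicClosure (v.adicCompletion K))
        (fun p : Fin n × Fin 3 => crd (Pv p.1) p.2) f
      simp only [hcPv] at h4
      have h8 := h7.symm.trans h4
      exact (map_eq_zero _).1 h8
    · obtain ⟨u, hu0, hu⟩ := hcr i
      refine ⟨u, hu0, fun j => ?_⟩
      obtain ⟨h3, h4⟩ := hu j
      have h5 : crd (P' i) j = algebraMap F M (crd (P i) j) := crd_pm _ _ _
      change (p v).val (u * algebraMap F M (crd (P i) j))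
        (algebraMap (v.adicCompletion K) (AlgebraicClosure (v.adicCompletion K)) (crd (Pv i) j))
      rw [← hcPv i j, ← h4, ← h5]
      exact ⟨h3, rfl⟩
    · obtain ⟨Q, h1, h2⟩ := key i k
      obtain ⟨z, hz⟩ := red_fixed (hpl v) (hr i) h1
      refine ⟨z, incl_injective ?_⟩
      have e5 : incl (E i) (v.adicCompletion K)
          (pm (E i) (Algebra.ofId K (v.adicCompletion K)) (y₀ i) + 3 ^ k • z) =
          incl (E i) (v.adicCompletion K) (pm (E i) (Algebra.ofId K (v.adicCompletion K)) (y₀ i)) +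
          incl (E i) (v.adicCompletion K) (3 ^ k • z) := map_add (pm (E i) _) _ _
      rw [e5, incl_nsmul, hz, hPv, ← red_const (hr i), h2, map_add, map_nsmul]

end main

end Pool.Agent.H438.CT
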